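import Pool.Agent.H81.RD.Iter

/-!
# From closed walks to rainbow cycles
-/

set_option autoImplicit false

namespace Pool.Agent.H81.RD

open Finset

variable {n t : ℕ}

/-- the number of labels of an arc -/
def lab (E : Fin t → Finset (Fin n × Fin n)) (v u : Fin n) : ℕ :=
  ((univ : Finset (Fin t)).filter fun i => (v, u) ∈ E i).card

theorem lab_self (E : Fin t → Finset (Fin n × Fin n)) (hE : ∀ i, ∀ p ∈ E i, p.1 ≠ p.2)
    (u : Fin n) : lab E u u = 0 := by
  unfold lab
  rw [card_eq_zero, filter_eq_empty_iff]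
  intro i _ hi
  exact hE i _ hi rfl

theorem sum_lab (E : Fin t → Finset (Fin n × Fin n)) (v : Fin n) :
    ∑ u, lab E v u = ∑ i, ((E i).filter (fun p => p.1 = v)).card := by
  have e1 : ∀ u, lab E v u = ∑ i : Fin t, if (v, u) ∈ E i then 1 else 0 := by
    intro u
    simp [lab]
  have e2 : ∀ i, ((E i).filter (fun p => p.1 = v)).card =
      ∑ u : Fin n, if (v, u) ∈ E i then 1 else 0 := by
    intro i
    rw [sum_boole, Nat.cast_id]
    refine card_bij' (fun p _ => p.2) (fun u _ => (v, u)) ?_ ?_ ?_ ?_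
    · intro p hp
      rw [mem_filter] at hp ⊢
      refine ⟨mem_univ _, ?_⟩
      rw [← hp.2]
      exact hp.1
    · intro u hu
      rw [mem_filter] at hu ⊢
      exact ⟨hu.2, rfl⟩
    · intro p hp
      rw [mem_filter] at hp
      rw [← hp.2]
    · intro u _
      rfl
  rw [sum_congr rfl fun u _ => e1 u, sum_comm]
  exact sum_congr rfl fun i _ => (e2 i).symm

theorem rainbow_of_closed (E : Fin t → Finset (Fin n × Fin n))
    (hE : ∀ i, ∀ p ∈ E i, p.1 ≠ p.2)
    (h : ∃ v : Fin n, ∃ N : ℕ → ℕ, ∃ L : ℕ, 0 < L ∧ W (lab E) v N L v ∧ ∀ T, N T ≤ T) :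
    ∃ m : ℕ, ∃ x : Fin (m + 2) → Fin n, ∃ c : Fin (m + 2) → Fin t,
      Function.Injective x ∧ Function.Injective c ∧
      ∀ j : Fin (m + 2), (x j, x (j + 1)) ∈ E (c j) := by
  classical
  obtain ⟨m, x, hx, hinj, hst, hcount⟩ := exists_simple (lab_self E hE) (fun T => T) h
  have hHall := (Finset.all_card_le_biUnion_card_iff_exists_injective
    (fun j : Fin (m + 2) => (univ : Finset (Fin t)).filter
      fun i => (x j, x ((j : ℕ) + 1)) ∈ E i)).mp (by
    intro X
    rcases X.eq_empty_or_nonempty with rfl | hX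
    · simp
    · obtain ⟨j0, hj0, hmax⟩ := exists_max_image X
        (fun j : Fin (m + 2) => lab E (x j) (x ((j : ℕ) + 1))) hX
      have h1 : X.card ≤ ((range (m + 2)).filter (fun j => lab E (x j) (x (j + 1)) ≤
          lab E (x j0) (x ((j0 : ℕ) + 1)))).card := by
        refine card_le_card_of_injOn (fun j : Fin (m + 2) => (j : ℕ)) ?_ ?_
        · intro j hj
          simp only [coe_filter, mem_range, Set.mem_ofPred_eq]
          exact ⟨j.isLt, hmax j hj⟩
        · intro j _ k _ hjk
          exact Fin.ext hjk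
      have h2 := hcount (lab E (x j0) (x ((j0 : ℕ) + 1)))
      have h3 : lab E (x j0) (x ((j0 : ℕ) + 1)) ≤ (X.biUnion fun j : Fin (m + 2) =>
          (univ : Finset (Fin t)).filter fun i => (x j, x ((j : ℕ) + 1)) ∈ E i).card := by
        unfold lab
        exact card_le_card (subset_biUnion_of_mem (fun j : Fin (m + 2) =>
          (univ : Finset (Fin t)).filter fun i => (x j, x ((j : ℕ) + 1)) ∈ E i) hj0)
      omega)
  obtain ⟨c, hc, hcmem⟩ := hHall
  refine ⟨m, fun j => x j, c, ?_, hc, ?_⟩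
  · intro a b hab
    simp only at hab
    by_contra hne
    rcases lt_or_gt_of_ne (fun h => hne (Fin.ext h) : (a : ℕ) ≠ b) with h1 | h1
    · exact hinj a b h1 b.isLt hab
    · exact hinj b a h1 a.isLt hab.symm
  · intro j
    have h1 := hcmem j
    rw [mem_filter] at h1
    have h2 := h1.2
    have h3 : x ((j : ℕ) + 1) = x ((j + 1 : Fin (m + 2)) : ℕ) := by
      rw [Fin.val_add_one]
      split_ifs with h4
      · rw [h4, Fin.val_last]
        exact hx
      · rfl
    show (x (j : ℕ), x ((j + 1 : Fin (m + 2)) : ℕ)) ∈ E (c j)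
    rw [← h3]
    exact h2

/-- truncated sums -/
theorem rainbow_of_P {C : ℕ} {K : ℝ} (hC : 0 < C) (hK : 0 < K) (hP : P (Fin n) C K 1)
    (hn : 0 < n) (E : Fin t → Finset (Fin n × Fin n)) (hE : ∀ i, ∀ p ∈ E i, p.1 ≠ p.2)
    (h : ∀ v : Fin n, K * n ≤ ∑ u, if C ≤ lab E v u then (lab E v u : ℝ) else 0) :
    ∃ m : ℕ, ∃ x : Fin (m + 2) → Fin n, ∃ c : Fin (m + 2) → Fin t,
      Function.Injective x ∧ Function.Injective c ∧
      ∀ j : Fin (m + 2), (x j, x (j + 1)) ∈ E (c j) := by
  classical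
  have hn2 : 2 ≤ n := by
    by_contra hcon
    have h1 : n = 1 := by omega
    subst h1
    have h2 := h 0
    rw [Fin.sum_univ_one, lab_self E hE, if_neg (by omega)] at h2
    simp only [Nat.cast_one, mul_one] at h2
    linarith
  obtain ⟨s, hs⟩ : ∃ s : Fin n → Fin n → ℕ, s = fun v u => if C ≤ lab E v u then lab E v u else 0 :=
    ⟨_, rfl⟩
  obtain ⟨v, N, L, hL, hW, hN⟩ := hP s univ (by rw [card_univ, Fintype.card_fin]; exact hn2) (by
    intro u
    rw [hs]
    simp [lab_self E hE]) (by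
    intro u y
    rw [hs]
    simp only
    split_ifs with h1
    · exact Or.inr h1
    · exact Or.inl rfl) (by
    intro u _
    rw [card_univ, Fintype.card_fin]
    have h1 := h u
    have h2 : ∑ y, (s u y : ℝ) = ∑ y, if C ≤ lab E u y then (lab E u y : ℝ) else 0 := by
      refine sum_congr rfl fun y _ => ?_
      rw [hs]
      simp only
      split_ifs
      · rfl
      · simp
    rw [h2]
    linarith)
  refine rainbow_of_closed E hE ⟨v, N, L, hL, hW.mono ?_, fun T => ?_⟩
  · intro u y hpos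
    rw [hs] at hpos ⊢
    simp only at hpos ⊢
    split_ifs at hpos ⊢ with h1
    · rfl
    · omega
  · have h1 := hN T
    rw [one_mul] at h1
    exact_mod_cast h1

end Pool.Agent.H81.RD
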