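import Pool.Agent.H81.RD.Contract

/-!
# Iterated contraction: the constant `1 + ε` for large multiplicities
-/

set_option autoImplicit false

namespace Pool.Agent.H81.RD

open Finset

/-- `P` holds for some `C`, for all vertex types -/
def Q (K lam : ℝ) : Prop := ∃ C : ℕ, 0 < C ∧ ∀ V : Type, P V C K lam

theorem log_two_le : Real.log 2 ≤ 7 / 10 := by
  have := Real.log_two_lt_d9
  linarith

theorem Q_base {K lam : ℝ} (hK : 0 < K) (h : 12 ≤ K * lam) : Q K lam := by
  obtain ⟨C, hC⟩ := exists_nat_ge (4 * K + 1)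
  have hC1 : (1 : ℝ) ≤ C := by linarith
  have hC0 : 0 < C := by exact_mod_cast (by linarith : (0 : ℝ) < C)
  refine ⟨C, hC0, fun V => ?_⟩
  classical
  have hCr : (0 : ℝ) < C := by linarith
  have h1 : (2 : ℝ) ^ 2 / (1 / K * C * (2 - 1)) ≤ 1 := by
    rw [div_le_one (by positivity)]
    rw [sub_eq_iff_eq_add.mpr (by norm_num : (2 : ℝ) = 1 + 1), mul_one,
      div_mul_eq_mul_div, one_mul, le_div_iff₀ hK]
    linarith
  have h2 : (1 : ℝ) / C ≤ 1 / (4 * K) := one_div_le_one_div_of_le (by positivity) (by linarith)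
  refine P_base (b := 1 / K) (q := 2) (κ := 6 / K) (by positivity) hC0 (by norm_num) hK ?_ ?_
  · have h3 : (2 + (2 : ℝ) ^ 2 / (1 / K * C * (2 - 1))) * Real.log 2 ≤ 3 * (7 / 10) := by
      have h4 := log_two_le
      have h5 : 0 ≤ Real.log 2 := Real.log_nonneg (by norm_num)
      have h6 : 0 ≤ (2 : ℝ) ^ 2 / (1 / K * C * (2 - 1)) := by
        have : (0 : ℝ) < 2 - 1 := by norm_num
        positivity
      nlinarith
    have h7 : (2 + (2 : ℝ) ^ 2 / (1 / K * C * (2 - 1))) * Real.log 2 / K ≤ 3 * (7 / 10) / K :=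
      div_le_div_of_nonneg_right h3 hK.le
    have h8 : 3 * (7 / 10) / K + 1 / (4 * K) + 1 / K / 2 ≤ 6 / K := by
      have e : 3 * (7 / 10) / K + 1 / (4 * K) + 1 / K / 2 = (57 / 20) / K := by
        field_simp
        norm_num
      rw [e]
      exact div_le_div_of_nonneg_right (by norm_num) hK.le
    linarith
  · rw [← mul_div_assoc, div_le_iff₀ hK]
    linarith

theorem Q_step {θ : ℝ} (hθ0 : 0 < θ) (hθ1 : θ ≤ 1) {K lam : ℝ} (hK : 0 < K)
    (hg : 1 + θ ≤ K * lam)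
    (hQ : ∀ lam', K * lam + θ ^ 2 / 64 ≤ K / (1 - θ / 8) * lam' → Q (K / (1 - θ / 8)) lam') :
    Q K lam := by
  obtain ⟨β, hβ⟩ : ∃ β, β = θ / 8 := ⟨_, rfl⟩
  have hβ0 : 0 < β := by rw [hβ]; positivity
  have hβ8 : β ≤ 1 / 8 := by rw [hβ]; linarith
  have hβ1 : 0 < 1 - β := by linarith
  rw [← hβ] at hQ
  obtain ⟨η, hη⟩ : ∃ η, η = θ ^ 2 / (1000 * (K + 1)) := ⟨_, rfl⟩
  have hη0 : 0 < η := by rw [hη]; positivity
  have hηK : 1000 * η * K ≤ θ ^ 2 := by
    rw [hη, mul_div_assoc', div_mul_eq_mul_div, div_le_iff₀ (by positivity)]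
    nlinarith [sq_nonneg θ]
  have hηθ : 1000 * η ≤ θ := by
    rw [hη, mul_div_assoc', div_le_iff₀ (by positivity)]
    nlinarith [sq_nonneg θ]
  -- `x = 1 / (1 - β)`
  obtain ⟨x, hx⟩ : ∃ x, x = 1 / (1 - β) := ⟨_, rfl⟩
  have hx0 : 0 < x := by rw [hx]; positivity
  have hxβ : x * (1 - β) = 1 := by rw [hx]; field_simp
  have hx7 : x ≤ 1 + θ / 7 := by
    rw [hx, div_le_iff₀ hβ1, hβ]
    nlinarith
  obtain ⟨lam', hlam'⟩ : ∃ lam', lam' = lam - (1 + 2 * η) * (β * x) / K - 3 * η := ⟨_, rfl⟩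
  -- the gain
  have hgain : K * lam + θ ^ 2 / 64 ≤ K / (1 - β) * lam' := by
    have e1 : K / (1 - β) * lam' = x * (K * lam - (1 + 2 * η) * (β * x) - 3 * η * K) := by
      rw [hlam', hx]
      field_simp
    rw [e1]
    have h1 : (1 - β) * (K * lam + θ ^ 2 / 64) ≤
        K * lam - (1 + 2 * η) * (β * x) - 3 * η * K := by
      have h2 : (1 + 2 * η) * x ≤ 1 + θ / 7 + θ / 400 := by
        have : 2 * η * x ≤ 2 * η * (8 / 7) := by
          refine mul_le_mul_of_nonneg_left ?_ (by positivity)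
          linarith
        linarith
      have h3 : (1 + 2 * η) * (β * x) ≤ β * (1 + θ / 7 + θ / 400) := by
        have := mul_le_mul_of_nonneg_left h2 hβ0.le
        linarith
      have h4 : β * (1 + θ) ≤ β * (K * lam) := mul_le_mul_of_nonneg_left hg hβ0.le
      have h5 : (1 - β) * (θ ^ 2 / 64) ≤ θ ^ 2 / 64 := by
        have : 0 ≤ θ ^ 2 := sq_nonneg θ
        nlinarith
      have h6 : β * (1 + θ) - β * (1 + θ / 7 + θ / 400) = θ ^ 2 / 8 * (1 - 1 / 7 - 1 / 400) := by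
        rw [hβ]
        ring
      have h7 : 0 < θ ^ 2 := by positivity
      nlinarith
    have h2 := mul_le_mul_of_nonneg_left h1 hx0.le
    have h3 : x * ((1 - β) * (K * lam + θ ^ 2 / 64)) = K * lam + θ ^ 2 / 64 := by
      rw [← mul_assoc, hxβ, one_mul]
    linarith
  have hlam0 : 0 ≤ lam' := by
    have h1 : 0 < K / (1 - β) * lam' := by
      have : 0 < θ ^ 2 := by positivity
      linarith
    exact (pos_of_mul_pos_right h1 (by positivity)).le
  obtain ⟨C1, hC1, hP⟩ := hQ lam' hgain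
  obtain ⟨C2, hC2⟩ := exists_nat_ge ((1 + η) ^ 2 / η ^ 3 + 1 / η)
  refine ⟨C1 + C2, by omega, fun V => ?_⟩
  classical
  have hCr : (1 + η) ^ 2 / η ^ 3 + 1 / η ≤ ((C1 + C2 : ℕ) : ℝ) := by
    push_cast
    have : (0 : ℝ) ≤ C1 := Nat.cast_nonneg _
    linarith
  have ha : 0 < (1 + η) ^ 2 / η ^ 3 := by positivity
  have hb : 0 < 1 / η := by positivity
  obtain ⟨c, hc⟩ : ∃ c : ℝ, c = ((C1 + C2 : ℕ) : ℝ) := ⟨_, rfl⟩
  have hc0 : 0 < c := by rw [hc]; linarith
  have hinv : 1 / c ≤ η := by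
    rw [div_le_iff₀ hc0]
    have h1 : 1 / η ≤ c := by rw [hc]; linarith
    rw [div_le_iff₀ hη0] at h1
    linarith
  have hsm : (1 + η) ^ 2 / (η * c * (1 + η - 1)) ≤ η := by
    have h1 : (1 + η) ^ 2 / η ^ 3 ≤ c := by rw [hc]; linarith
    rw [div_le_iff₀ (by positivity)] at h1
    rw [add_sub_cancel_left, div_le_iff₀ (by positivity)]
    linarith
  have hlog : Real.log (1 / (1 - β)) ≤ β * x := by
    have h1 := Real.log_le_sub_one_of_pos (x := 1 / (1 - β)) (by positivity)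
    have h2 : 1 / (1 - β) - 1 = β * x := by
      rw [hx]
      field_simp
      ring
    linarith
  have hlog0 : 0 ≤ Real.log (1 / (1 - β)) := by
    refine Real.log_nonneg ?_
    rw [le_div_iff₀ hβ1]
    linarith
  refine P_step (V := V) (b := η) (q := 1 + η) (β := β)
    (κ := (1 + 2 * η) * (β * x) / K + 2 * η) (lam' := lam') hη0 (by omega) (by linarith) hK hβ0
    (by linarith) ?_ hlam0 ?_ ((hP V).mono (by omega))
  · rw [← hc]
    have h1 : (1 + η + (1 + η) ^ 2 / (η * c * (1 + η - 1))) * Real.log (1 / (1 - β)) ≤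
        (1 + 2 * η) * (β * x) := by
      refine mul_le_mul (by linarith) hlog hlog0 (by positivity)
    have h2 := div_le_div_of_nonneg_right h1 hK.le
    linarith
  · rw [← hc, hlam']
    linarith

theorem Q_iter {θ : ℝ} (hθ0 : 0 < θ) (hθ1 : θ ≤ 1) (j : ℕ) : ∀ K lam : ℝ, 0 < K →
    1 + θ ≤ K * lam → 12 ≤ K * lam + j * (θ ^ 2 / 64) → Q K lam := by
  induction j with
  | zero =>
    intro K lam hK _ h
    refine Q_base hK ?_
    simpa using h
  | succ j ih =>
    intro K lam hK hg h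
    refine Q_step hθ0 hθ1 hK hg fun lam' hlam' => ?_
    have h1 : 0 < 1 - θ / 8 := by linarith
    have h2 : 0 < θ ^ 2 := by positivity
    refine ih _ lam' (by positivity) (by linarith) ?_
    push_cast at h
    linarith

/-- **The asymptotically optimal constant.** -/
theorem Q_one {ε : ℝ} (hε : 0 < ε) : Q (1 + ε) 1 := by
  obtain ⟨θ, hθ⟩ : ∃ θ, θ = min ε 1 := ⟨_, rfl⟩
  have hθ0 : 0 < θ := by rw [hθ]; exact lt_min hε one_pos
  have hθ1 : θ ≤ 1 := by rw [hθ]; exact min_le_right _ _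
  have hθε : θ ≤ ε := by rw [hθ]; exact min_le_left _ _
  obtain ⟨j, hj⟩ := exists_nat_ge (12 / (θ ^ 2 / 64))
  refine Q_iter hθ0 hθ1 j _ _ (by linarith) (by linarith) ?_
  rw [div_le_iff₀ (by positivity)] at hj
  linarith

/-- the explicit constant -/
theorem P_nine (V : Type) : P V 9 (46 / 5) 1 := by
  classical
  refine P_base (b := 1 / 4) (q := 3 / 2) (κ := 1 / 2) (by norm_num) (by norm_num) (by norm_num)
    (by norm_num) ?_ (by norm_num)
  have h1 := Real.log_two_lt_d9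
  norm_num
  linarith

end Pool.Agent.H81.RD
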