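import Mathlib

/-!
# Walks with counts

`s u y` is a multiplicity. `W s v N L y`: there is a walk of length `L` from `v` to `y` using only
steps of positive multiplicity, and `N T` is the number of its steps of multiplicity at most `T`.
-/

set_option autoImplicit false

namespace Pool.Agent.H81.RD

open Finset

variable {V : Type}

/-- walks with their counting function -/
inductive W (s : V → V → ℕ) (v : V) : (ℕ → ℕ) → ℕ → V → Prop
  | refl : W s v (fun _ => 0) 0 v
  | step {N : ℕ → ℕ} {L : ℕ} {u y : V} : W s v N L u → 0 < s u y →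
      W s v (fun T => N T + if s u y ≤ T then 1 else 0) (L + 1) y

theorem W.trans {s : V → V → ℕ} {v u y : V} {N N' : ℕ → ℕ} {L L' : ℕ}
    (h : W s v N L u) (h' : W s u N' L' y) : W s v (fun T => N T + N' T) (L + L') y := by
  induction h' with
  | refl => simpa using h
  | step _ h2 ih =>
    have h3 := W.step ih h2
    simp only [add_assoc] at h3 ⊢
    exact h3

theorem W.eq_of_zero {s : V → V → ℕ} {v y : V} {N : ℕ → ℕ} {L : ℕ}
    (h : W s v N L y) (hL : L = 0) : v = y := by
  cases h with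
  | refl => rfl
  | step _ _ => omega

theorem W.mono {s s' : V → V → ℕ} (hs : ∀ u y, 0 < s' u y → s' u y = s u y) {v y : V}
    {N : ℕ → ℕ} {L : ℕ} (h : W s' v N L y) : W s v N L y := by
  induction h with
  | refl => exact W.refl
  | step _ h2 ih =>
    have h3 := hs _ _ h2
    rw [h3] at h2 ⊢
    exact W.step ih h2

theorem W.exists_fun {s : V → V → ℕ} {v y : V} {N : ℕ → ℕ} {L : ℕ} (h : W s v N L y) :
    ∃ x : ℕ → V, x 0 = v ∧ x L = y ∧ (∀ j < L, 0 < s (x j) (x (j + 1))) ∧
      ∀ T, ((range L).filter (fun j => s (x j) (x (j + 1)) ≤ T)).card = N T := by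
  classical
  induction h with
  | refl => exact ⟨fun _ => v, rfl, rfl, by simp, by simp⟩
  | @step N L u y _ h2 ih =>
    obtain ⟨x, hx0, hxL, hst, hc⟩ := ih
    have hlt : ∀ j < L, s (if j ≤ L then x j else y) (if j + 1 ≤ L then x (j + 1) else y) =
        s (x j) (x (j + 1)) := by
      intro j hj
      rw [if_pos hj.le, if_pos (by omega)]
    have heq : s (if L ≤ L then x L else y) (if L + 1 ≤ L then x (L + 1) else y) = s u y := by
      rw [if_pos le_rfl, if_neg (by omega), hxL]
    refine ⟨fun j => if j ≤ L then x j else y, ?_, ?_, ?_, ?_⟩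
    · simpa using hx0
    · simp
    · intro j hj
      rcases Nat.lt_succ_iff_lt_or_eq.mp hj with h3 | h3
      · simp only [hlt j h3]
        exact hst j h3
      · subst h3
        simp only [heq]
        exact h2
    · intro T
      rw [range_add_one, filter_insert]
      have h3 : (range L).filter (fun j => s (if j ≤ L then x j else y)
          (if j + 1 ≤ L then x (j + 1) else y) ≤ T) =
          (range L).filter (fun j => s (x j) (x (j + 1)) ≤ T) := by
        refine filter_congr fun j hj => ?_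
        rw [hlt j (mem_range.mp hj)]
      simp only [heq]
      rw [h3]
      split_ifs with h4
      · rw [card_insert_of_notMem (by simp), hc]
      · rw [hc, add_zero]

theorem W.of_fun {s : V → V → ℕ} (x : ℕ → V) (L : ℕ)
    (hst : ∀ j < L, 0 < s (x j) (x (j + 1))) :
    ∃ N : ℕ → ℕ, W s (x 0) N L (x L) ∧
      ∀ T, N T = ((range L).filter (fun j => s (x j) (x (j + 1)) ≤ T)).card := by
  induction L with
  | zero => exact ⟨fun _ => 0, W.refl, by simp⟩
  | succ L ih =>
    obtain ⟨N, hW, hc⟩ := ih fun j hj => hst j (by omega)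
    refine ⟨_, W.step hW (hst L (by omega)), fun T => ?_⟩
    rw [range_add_one, filter_insert]
    split_ifs with h4
    · rw [card_insert_of_notMem (by simp), ← hc]
    · rw [← hc, add_zero]

theorem exists_simple {s : V → V → ℕ} (hs0 : ∀ u, s u u = 0) (K : ℕ → ℕ)
    (h : ∃ v : V, ∃ N : ℕ → ℕ, ∃ L : ℕ, 0 < L ∧ W s v N L v ∧ ∀ T, N T ≤ K T) :
    ∃ (m : ℕ) (x : ℕ → V), x (m + 2) = x 0 ∧
      (∀ a b : ℕ, a < b → b < m + 2 → x a ≠ x b) ∧
      (∀ j < m + 2, 0 < s (x j) (x (j + 1))) ∧
      ∀ T, ((range (m + 2)).filter (fun j => s (x j) (x (j + 1)) ≤ T)).card ≤ K T := by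
  classical
  have h' : ∃ L : ℕ, 0 < L ∧ ∃ v : V, ∃ N : ℕ → ℕ, W s v N L v ∧ ∀ T, N T ≤ K T := by
    obtain ⟨v, N, L, hL, hW, hc⟩ := h
    exact ⟨L, hL, v, N, hW, hc⟩
  obtain ⟨hL, v, N, hW, hc⟩ := Nat.find_spec h'
  have hmin := fun (m : ℕ) (hm : m < Nat.find h') => Nat.find_min h' hm
  obtain ⟨L, hLdef⟩ : ∃ L, L = Nat.find h' := ⟨_, rfl⟩
  rw [← hLdef] at hL hW hmin
  obtain ⟨x, hx0, hxL, hst, hcount⟩ := hW.exists_fun
  have hL2 : 2 ≤ L := by
    by_contra hcon
    have h1 : L = 1 := by omega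
    subst h1
    have h2 := hst 0 (by omega)
    rw [zero_add, hxL, hx0, hs0] at h2
    omega
  obtain ⟨m, rfl⟩ : ∃ m, L = m + 2 := ⟨L - 2, by omega⟩
  refine ⟨m, x, by rw [hxL, hx0], ?_, hst, fun T => by rw [hcount]; exact hc T⟩
  intro a b hab hb heq
  obtain ⟨N', hW', hc'⟩ := W.of_fun (s := s) (fun j => x (a + j)) (b - a)
    (fun j hj => hst (a + j) (by omega))
  refine hmin (b - a) (by omega) ⟨by omega, x a, N', ?_, fun T => ?_⟩
  · have e : a + (b - a) = b := by omega
    simp only [add_zero, e, ← heq] at hW'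
    exact hW'
  · refine le_trans ?_ (hc T)
    rw [hc', ← hcount]
    refine card_le_card_of_injOn (fun j => a + j) ?_ ?_
    · intro j hj
      simp only [coe_filter, mem_range, Set.mem_ofPred_eq] at hj ⊢
      exact ⟨by omega, hj.2⟩
    · intro j _ k _ hjk
      simpa using hjk

end Pool.Agent.H81.RD
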