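import Pool.Agent.H81.RD.Pot
import Pool.Agent.H81.RD.Walk

/-!
# Growing balls
-/

set_option autoImplicit false

namespace Pool.Agent.H81.RD

open Finset

variable {V : Type}

theorem gap_pos {C q : ℝ} (hC : 0 < C) (hq : 1 < q) (i : ℕ) : 0 < gap C q i := by
  unfold gap
  split_ifs
  · positivity
  · have : 0 < q - 1 := by linarith
    positivity

/-- one step of the growth: a threshold with a low price -/
theorem exists_cheap {J : ℕ} {b C q K : ℝ} (hb : 0 < b) (hC : 0 < C) (hq : 1 < q) (hK : 0 < K)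
    {s : V → V → ℕ} (D : Finset V) (hD : D.Nonempty) (u : V)
    (hs : ∀ y ∈ D, (s u y : ℝ) = 0 ∨ C ≤ s u y)
    (hsJ : ∀ y ∈ D, (s u y : ℝ) < C * q ^ (J + 1))
    (hu : K * D.card ≤ ∑ y ∈ D, (s u y : ℝ)) (n : Fin (J + 1) → ℕ) :
    ∃ i : Fin (J + 1), 0 < (D.filter fun y => C * q ^ (i : ℕ) ≤ s u y).card ∧
      K * D.card * (pot b C q (n + Pi.single i 1) - pot b C q n) ≤
        (q + q ^ 2 / (b * C * (q - 1))) * (D.filter fun y => C * q ^ (i : ℕ) ≤ s u y).card := by
  by_contra hcon
  push Not at hcon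
  have hq0 : 0 < q - 1 := by linarith
  obtain ⟨Λ, hΛ⟩ : ∃ Λ, Λ = q + q ^ 2 / (b * C * (q - 1)) := ⟨_, rfl⟩
  have hΛ0 : 0 < Λ := by rw [hΛ]; positivity
  rw [← hΛ] at hcon
  have hD0 : 0 < K * D.card := by
    have : (0 : ℝ) < D.card := by exact_mod_cast card_pos.mpr hD
    positivity
  have h1 : K * D.card ≤
      ∑ i : Fin (J + 1), gap C q i * (D.filter fun y => C * q ^ (i : ℕ) ≤ s u y).card := by
    calc K * D.card ≤ ∑ y ∈ D, (s u y : ℝ) := hu
      _ ≤ ∑ y ∈ D, ∑ i : Fin (J + 1), if C * q ^ (i : ℕ) ≤ s u y then gap C q i else 0 :=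
          sum_le_sum fun y hy => gap_cover hC hq J _ (hs y hy) (hsJ y hy)
      _ = _ := by
          rw [sum_comm]
          refine sum_congr rfl fun i _ => ?_
          rw [← sum_filter, sum_const, nsmul_eq_mul, mul_comm]
  have h2 : ∃ i : Fin (J + 1), 0 < (D.filter fun y => C * q ^ (i : ℕ) ≤ s u y).card := by
    by_contra h3
    push Not at h3
    have h4 : ∑ i : Fin (J + 1), gap C q i *
        (D.filter fun y => C * q ^ (i : ℕ) ≤ s u y).card = 0 := by
      refine sum_eq_zero fun i _ => ?_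
      have h5 : (D.filter fun y => C * q ^ (i : ℕ) ≤ s u y).card = 0 := Nat.le_zero.mp (h3 i)
      rw [h5]
      simp
    linarith
  have h3 : ∑ i : Fin (J + 1), gap C q i * (Λ *
        (D.filter fun y => C * q ^ (i : ℕ) ≤ s u y).card) <
      ∑ i : Fin (J + 1), gap C q i *
        (K * D.card * (pot b C q (n + Pi.single i 1) - pot b C q n)) := by
    refine sum_lt_sum ?_ ?_
    · intro i _
      refine mul_le_mul_of_nonneg_left ?_ (gap_nonneg hC hq i)
      rcases Nat.eq_zero_or_pos (D.filter fun y => C * q ^ (i : ℕ) ≤ s u y).card with h4 | h4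
      · rw [h4]
        have := pot_mono b hC hq n i
        simp only [Nat.cast_zero, mul_zero]
        exact mul_nonneg hD0.le (by linarith)
      · exact (hcon i h4).le
    · obtain ⟨i, hi⟩ := h2
      exact ⟨i, mem_univ _, mul_lt_mul_of_pos_left (hcon i hi) (gap_pos hC hq i)⟩
  have h4 : ∑ i : Fin (J + 1), gap C q i * (Λ *
        (D.filter fun y => C * q ^ (i : ℕ) ≤ s u y).card) =
      Λ * ∑ i : Fin (J + 1), gap C q i *
        (D.filter fun y => C * q ^ (i : ℕ) ≤ s u y).card := by
    rw [mul_sum]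
    exact sum_congr rfl fun i _ => by ring
  have h5 : ∑ i : Fin (J + 1), gap C q i *
        (K * D.card * (pot b C q (n + Pi.single i 1) - pot b C q n)) =
      K * D.card * ∑ i : Fin (J + 1), gap C q i *
        (pot b C q (n + Pi.single i 1) - pot b C q n) := by
    rw [mul_sum]
    exact sum_congr rfl fun i _ => by ring
  have h6 := pot_price_sum hb hC hq n
  rw [← hΛ] at h6
  rw [h4, h5] at h3
  have h7 := mul_le_mul_of_nonneg_left h1 hΛ0.le
  have h8 := mul_le_mul_of_nonneg_left h6 hD0.le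
  linarith

/-- the growth of one ball -/
theorem exists_ball [DecidableEq V] {b C q K β κ : ℝ} (hb : 0 < b) (hC : 0 < C) (hq : 1 < q)
    (hK : 0 < K) (hβ0 : 0 < β) (hβ1 : β < 1)
    (hκ : (q + q ^ 2 / (b * C * (q - 1))) * Real.log (1 / (1 - β)) / K + 1 / C + b / 2 ≤ κ)
    {s : V → V → ℕ} (hs : ∀ u y, (s u y : ℝ) = 0 ∨ C ≤ s u y) (hs0 : ∀ u, s u u = 0)
    (B : Finset V) (hB2 : 2 ≤ B.card)
    (hB : ∀ u ∈ B, K * ((B.card : ℝ) - 1) ≤ ∑ y ∈ B, (s u y : ℝ))
    (hmin : ∀ R ⊆ B, 2 ≤ R.card → R ≠ B →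
      ∃ u ∈ R, ∑ y ∈ R, (s u y : ℝ) < K * ((R.card : ℝ) - 1))
    {v : V} (hv : v ∈ B) :
    ∃ R ⊆ B, v ∈ R ∧ β * ((B.card : ℝ) - 1) < (R.card : ℝ) - 1 ∧
      ∀ y ∈ R, ∃ N : ℕ → ℕ, ∃ L : ℕ, W s v N L y ∧ ∀ T : ℕ, (N T : ℝ) ≤ κ * T := by
  have hq0 : 0 < q - 1 := by linarith
  obtain ⟨Λ, hΛ⟩ : ∃ Λ, Λ = q + q ^ 2 / (b * C * (q - 1)) := ⟨_, rfl⟩
  have hΛ0 : 0 < Λ := by rw [hΛ]; positivity
  have hBr : (2 : ℝ) ≤ B.card := by exact_mod_cast hB2
  -- the number of scales
  obtain ⟨J, hJ⟩ : ∃ J : ℕ, ∀ u ∈ B, ∀ y ∈ B, (s u y : ℝ) < C * q ^ (J + 1) := by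
    obtain ⟨k, hk⟩ := pow_unbounded_of_one_lt ((∑ u ∈ B, ∑ y ∈ B, (s u y : ℝ)) / C) hq
    refine ⟨k, fun u hu y hy => ?_⟩
    have h1 : (s u y : ℝ) ≤ ∑ u ∈ B, ∑ y ∈ B, (s u y : ℝ) := by
      refine le_trans ?_ (single_le_sum (f := fun u => ∑ y ∈ B, (s u y : ℝ))
        (fun u _ => sum_nonneg fun y _ => Nat.cast_nonneg _) hu)
      exact single_le_sum (f := fun y => (s u y : ℝ)) (fun y _ => Nat.cast_nonneg _) hy
    rw [div_lt_iff₀ hC] at hk
    have h2 : q ^ k ≤ q ^ (k + 1) := pow_le_pow_right₀ hq.le (by omega)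
    have h3 := mul_le_mul_of_nonneg_left h2 hC.le
    linarith
  have key : ∀ k : ℕ, ∃ R ⊆ B, ∃ n : Fin (J + 1) → ℕ, v ∈ R ∧
      (∀ y ∈ R, ∃ N : ℕ → ℕ, ∃ L : ℕ, W s v N L y ∧
        ∀ T : ℕ, N T ≤ ∑ i : Fin (J + 1), if C * q ^ (i : ℕ) ≤ (T : ℝ) then n i else 0) ∧
      ((K * pot b C q n ≤ Λ * Real.log (((B.card : ℝ) - 1) / ((B \ R).card : ℝ)) ∧
          (R.card : ℝ) - 1 ≤ β * ((B.card : ℝ) - 1) ∧ k ≤ R.card) ∨
        (β * ((B.card : ℝ) - 1) < (R.card : ℝ) - 1 ∧
          pot b C q n ≤ Λ * Real.log (1 / (1 - β)) / K + 1 / C)) := by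
    intro k
    induction k with
    | zero =>
      refine ⟨{v}, by simpa using hv, 0, mem_singleton_self v, ?_, Or.inl ⟨?_, ?_, Nat.zero_le _⟩⟩
      · intro y hy
        rw [mem_singleton] at hy
        subst hy
        exact ⟨_, 0, W.refl, fun T => Nat.zero_le _⟩
      · have h1 := pot_zero (J := J) hb C q
        have h2 : ((B \ {v}).card : ℝ) = (B.card : ℝ) - 1 := by
          rw [card_sdiff_of_subset (by simpa using hv), card_singleton,
            Nat.cast_sub (by omega), Nat.cast_one]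
        rw [h2, div_self (by linarith), Real.log_one, mul_zero]
        nlinarith
      · rw [card_singleton]
        push_cast
        have : 0 ≤ β * ((B.card : ℝ) - 1) := by nlinarith
        linarith
    | succ k ih =>
      obtain ⟨R, hRB, n, hvR, hreach, halt⟩ := ih
      rcases halt with ⟨hpot, hsmall, hk⟩ | hbig
      swap
      · exact ⟨R, hRB, n, hvR, hreach, Or.inr hbig⟩
      have hRne : R.Nonempty := ⟨v, hvR⟩
      have hR1 : 1 ≤ R.card := card_pos.mpr hRne
      have hcard : ((B \ R).card : ℝ) = ((B.card : ℝ) - 1) - ((R.card : ℝ) - 1) := by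
        rw [card_sdiff_of_subset hRB, Nat.cast_sub (card_le_card hRB)]
        ring
      have hDlow : (1 - β) * ((B.card : ℝ) - 1) ≤ ((B \ R).card : ℝ) := by
        rw [hcard]
        linarith
      have hDpos' : 0 < (1 - β) * ((B.card : ℝ) - 1) := mul_pos (by linarith) (by linarith)
      have hDpos : (0 : ℝ) < ((B \ R).card : ℝ) := by linarith
      have hDne : (B \ R).Nonempty := card_pos.mp (by exact_mod_cast hDpos)
      have hne : R ≠ B := by
        rintro rfl
        simp at hDpos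
      have hexit : ∃ u ∈ R, ∑ y ∈ R, (s u y : ℝ) ≤ K * ((R.card : ℝ) - 1) := by
        rcases Nat.lt_or_ge R.card 2 with h1 | h1
        · have h2 : R.card = 1 := by omega
          obtain ⟨a, ha⟩ := card_eq_one.mp h2
          refine ⟨a, by rw [ha]; exact mem_singleton_self a, ?_⟩
          rw [ha, sum_singleton, hs0, card_singleton]
          simp
        · obtain ⟨u, hu, h2⟩ := hmin R hRB h1 hne
          exact ⟨u, hu, h2.le⟩
      obtain ⟨u, huR, hu⟩ := hexit
      have hsplit : ∑ y ∈ B \ R, (s u y : ℝ) + ∑ y ∈ R, (s u y : ℝ) = ∑ y ∈ B, (s u y : ℝ) :=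
        sum_sdiff hRB
      have hu' : K * ((B \ R).card : ℝ) ≤ ∑ y ∈ B \ R, (s u y : ℝ) := by
        have h1 := hB u (hRB huR)
        rw [hcard, mul_sub]
        linarith
      obtain ⟨i, hi1, hi2⟩ := exists_cheap (J := J) hb hC hq hK (B \ R) hDne u
        (fun y _ => hs u y) (fun y hy => hJ u (hRB huR) y (mem_sdiff.mp hy).1) hu' n
      rw [← hΛ] at hi2
      obtain ⟨A, hA⟩ : ∃ A, A = (B \ R).filter fun y => C * q ^ (i : ℕ) ≤ s u y := ⟨_, rfl⟩
      rw [← hA] at hi1 hi2
      have hAsub : A ⊆ B \ R := by rw [hA]; exact filter_subset _ _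
      have hdisj : Disjoint R A := by
        rw [Finset.disjoint_left]
        intro y hy hy'
        exact (mem_sdiff.mp (hAsub hy')).2 hy
      have hcard2 : (R ∪ A).card = R.card + A.card := card_union_of_disjoint hdisj
      have hRA : R ∪ A ⊆ B := union_subset hRB (hAsub.trans sdiff_subset)
      refine ⟨R ∪ A, hRA, n + Pi.single i 1, mem_union_left _ hvR, ?_, ?_⟩
      · have hsum : ∀ T : ℕ, (∑ j : Fin (J + 1), if C * q ^ (j : ℕ) ≤ (T : ℝ) then
            (n + Pi.single i 1 : Fin (J + 1) → ℕ) j else 0) =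
            (∑ j : Fin (J + 1), if C * q ^ (j : ℕ) ≤ (T : ℝ) then n j else 0) +
              if C * q ^ (i : ℕ) ≤ (T : ℝ) then 1 else 0 := by
          intro T
          have e1 : ∀ j : Fin (J + 1), (if C * q ^ (j : ℕ) ≤ (T : ℝ) then
              (n + Pi.single i 1 : Fin (J + 1) → ℕ) j else 0) =
              (if C * q ^ (j : ℕ) ≤ (T : ℝ) then n j else 0) +
                if j = i then (if C * q ^ (i : ℕ) ≤ (T : ℝ) then 1 else 0) else 0 := by
            intro j
            by_cases h : j = i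
            · subst h
              by_cases h2 : C * q ^ (j : ℕ) ≤ (T : ℝ) <;> simp [h2]
            · simp [h]
          rw [sum_congr rfl fun j _ => e1 j, sum_add_distrib]
          simp
        intro y hy
        rw [mem_union] at hy
        rcases hy with hy | hy
        · obtain ⟨N, L, hW, hN⟩ := hreach y hy
          refine ⟨N, L, hW, fun T => ?_⟩
          rw [hsum]
          exact (hN T).trans (Nat.le_add_right _ _)
        · obtain ⟨N, L, hW, hN⟩ := hreach u huR
          rw [hA, mem_filter] at hy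
          have hpos : 0 < s u y := by
            have h1 : (0 : ℝ) < C * q ^ (i : ℕ) := by positivity
            have h2 : (0 : ℝ) < s u y := lt_of_lt_of_le h1 hy.2
            exact_mod_cast h2
          refine ⟨_, L + 1, W.step hW hpos, fun T => ?_⟩
          rw [hsum]
          refine Nat.add_le_add (hN T) ?_
          by_cases h1 : s u y ≤ T
          · have h2 : C * q ^ (i : ℕ) ≤ (T : ℝ) := hy.2.trans (by exact_mod_cast h1)
            rw [if_pos h1, if_pos h2]
          · rw [if_neg h1]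
            exact Nat.zero_le _
      · have hlog1 : Real.log (((B.card : ℝ) - 1) / ((B \ R).card : ℝ)) ≤
            Real.log (1 / (1 - β)) := by
          refine Real.log_le_log (div_pos (by linarith) hDpos) ?_
          rw [div_le_div_iff₀ hDpos (by linarith)]
          linarith
        by_cases hlast : β * ((B.card : ℝ) - 1) < ((R ∪ A).card : ℝ) - 1
        · right
          refine ⟨hlast, ?_⟩
          have h1 := pot_step_max b hC hq n i
          have h2 : pot b C q n ≤ Λ * Real.log (1 / (1 - β)) / K := by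
            rw [le_div_iff₀ hK, mul_comm]
            exact hpot.trans (mul_le_mul_of_nonneg_left hlog1 hΛ0.le)
          linarith
        · left
          push Not at hlast
          refine ⟨?_, hlast, by rw [hcard2]; omega⟩
          have hcard3 : ((B \ (R ∪ A)).card : ℝ) = ((B \ R).card : ℝ) - A.card := by
            rw [hcard, card_sdiff_of_subset hRA, Nat.cast_sub (card_le_card hRA), hcard2]
            push_cast
            ring
          have hD' : (0 : ℝ) < ((B \ (R ∪ A)).card : ℝ) := by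
            have h1 : (((B \ (R ∪ A)).card : ℕ) : ℝ) =
                ((B.card : ℝ) - 1) - (((R ∪ A).card : ℝ) - 1) := by
              rw [card_sdiff_of_subset hRA, Nat.cast_sub (card_le_card hRA)]
              ring
            rw [h1]
            linarith
          have h1 : (A.card : ℝ) / ((B \ R).card : ℝ) ≤
              Real.log (((B \ R).card : ℝ) / ((B \ (R ∪ A)).card : ℝ)) := by
            have h2 := Real.log_le_sub_one_of_pos (div_pos hD' hDpos)
            have h3 : Real.log (((B \ R).card : ℝ) / ((B \ (R ∪ A)).card : ℝ)) =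
                -Real.log (((B \ (R ∪ A)).card : ℝ) / ((B \ R).card : ℝ)) := by
              rw [← Real.log_inv, inv_div]
            rw [h3]
            have h4 : ((B \ (R ∪ A)).card : ℝ) / ((B \ R).card : ℝ) - 1 =
                -((A.card : ℝ) / ((B \ R).card : ℝ)) := by
              rw [hcard3]
              field_simp
              ring
            rw [h4] at h2
            linarith
          have h2 : Real.log (((B.card : ℝ) - 1) / ((B \ (R ∪ A)).card : ℝ)) =
              Real.log (((B.card : ℝ) - 1) / ((B \ R).card : ℝ)) +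
                Real.log (((B \ R).card : ℝ) / ((B \ (R ∪ A)).card : ℝ)) := by
            rw [← Real.log_mul (div_pos (by linarith) hDpos).ne' (div_pos hDpos hD').ne']
            congr 1
            field_simp
          have h3 : K * (pot b C q (n + Pi.single i 1) - pot b C q n) ≤
              Λ * ((A.card : ℝ) / ((B \ R).card : ℝ)) := by
            rw [← mul_div_assoc, le_div_iff₀ hDpos]
            linarith
          rw [h2, mul_add]
          have h4 := mul_le_mul_of_nonneg_left h1 hΛ0.le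
          linarith
  obtain ⟨R, hRB, n, hvR, hreach, halt⟩ := key (B.card + 1)
  have hRle := card_le_card hRB
  rcases halt with ⟨_, _, hk⟩ | ⟨hbig, hpot⟩
  · omega
  refine ⟨R, hRB, hvR, hbig, fun y hy => ?_⟩
  obtain ⟨N, L, hW, hN⟩ := hreach y hy
  refine ⟨N, L, hW, fun T => ?_⟩
  have hld : ∀ j, ld C q n j ≤ κ := by
    intro j
    have h1 := ld_le_pot b C q n j
    rw [← hΛ] at hκ
    linarith
  have hκ0 : 0 ≤ κ := by
    refine le_trans ?_ (hld 0)
    unfold ld
    refine div_nonneg (sum_nonneg fun i _ => ?_) (by positivity)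
    split_ifs
    · exact Nat.cast_nonneg _
    · exact le_rfl
  have hNT : (N T : ℝ) ≤ ∑ i : Fin (J + 1), if C * q ^ (i : ℕ) ≤ (T : ℝ) then (n i : ℝ) else 0 := by
    have h1 : ((N T : ℕ) : ℝ) ≤
        ((∑ i : Fin (J + 1), if C * q ^ (i : ℕ) ≤ (T : ℝ) then n i else 0 : ℕ) : ℝ) := by
      exact_mod_cast hN T
    push_cast at h1
    exact h1
  refine hNT.trans ?_
  rcases ((univ : Finset (Fin (J + 1))).filter
    fun i : Fin (J + 1) => C * q ^ (i : ℕ) ≤ (T : ℝ)).eq_empty_or_nonempty with h1 | h1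
  · rw [← sum_filter, h1, sum_empty]
    positivity
  · obtain ⟨j, hj, hmax⟩ := exists_max_image _ (fun i : Fin (J + 1) => i) h1
    rw [mem_filter] at hj
    have h2 : (∑ i : Fin (J + 1), if C * q ^ (i : ℕ) ≤ (T : ℝ) then (n i : ℝ) else 0) ≤
        ∑ i : Fin (J + 1), if i ≤ j then (n i : ℝ) else 0 := by
      refine sum_le_sum fun i _ => ?_
      by_cases h3 : C * q ^ (i : ℕ) ≤ (T : ℝ)
      · have h4 := hmax i (mem_filter.mpr ⟨mem_univ _, h3⟩)
        rw [if_pos h3, if_pos h4]
      · rw [if_neg h3]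
        split_ifs
        · exact Nat.cast_nonneg _
        · exact le_rfl
    have h3 := hld j
    unfold ld at h3
    rw [div_le_iff₀ (by positivity)] at h3
    have h4 := mul_le_mul_of_nonneg_left hj.2 hκ0
    linarith

end Pool.Agent.H81.RD
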