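import Pool.Agent.H81.RD.Ball

/-!
# Contraction
-/

set_option autoImplicit false

namespace Pool.Agent.H81.RD

open Finset

variable {V : Type}

/-- `P V C K lam`: if all multiplicities are `0` or at least `C` and all out-sums in a set `B` are
at least `K (|B| - 1)`, then there is a closed walk with at most `lam T` steps of multiplicity
at most `T`, for all `T` -/
def P (V : Type) (C : ℕ) (K lam : ℝ) : Prop :=
  ∀ (s : V → V → ℕ) (B : Finset V), 2 ≤ B.card → (∀ u, s u u = 0) →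
    (∀ u y, s u y = 0 ∨ C ≤ s u y) →
    (∀ u ∈ B, K * ((B.card : ℝ) - 1) ≤ ∑ y ∈ B, (s u y : ℝ)) →
    ∃ (v : V) (N : ℕ → ℕ) (L : ℕ), 0 < L ∧ W s v N L v ∧ ∀ T : ℕ, (N T : ℝ) ≤ lam * T

theorem P.mono {C C' : ℕ} {K lam : ℝ} (hCC : C ≤ C') (h : P V C K lam) : P V C' K lam := by
  intro s B hB2 hs0 hs hB
  refine h s B hB2 hs0 (fun u y => ?_) hB
  rcases hs u y with h1 | h1
  · exact Or.inl h1
  · exact Or.inr (hCC.trans h1)

theorem P_of_balls [DecidableEq V] {b q K β κ lam : ℝ} {C : ℕ} (hb : 0 < b) (hC : 0 < C)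
    (hq : 1 < q) (hK : 0 < K) (hβ0 : 0 < β) (hβ1 : β < 1)
    (hκ : (q + q ^ 2 / (b * C * (q - 1))) * Real.log (1 / (1 - β)) / K + 1 / C + b / 2 ≤ κ)
    (h : ∀ (s : V → V → ℕ) (B : Finset V), 2 ≤ B.card → (∀ u, s u u = 0) →
      (∀ u y, s u y = 0 ∨ C ≤ s u y) →
      (∀ u ∈ B, K * ((B.card : ℝ) - 1) ≤ ∑ y ∈ B, (s u y : ℝ)) →
      (∀ v ∈ B, ∃ R ⊆ B, v ∈ R ∧ β * ((B.card : ℝ) - 1) < (R.card : ℝ) - 1 ∧
        ∀ y ∈ R, ∃ N : ℕ → ℕ, ∃ L : ℕ, W s v N L y ∧ ∀ T : ℕ, (N T : ℝ) ≤ κ * T) →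
      ∃ (v : V) (N : ℕ → ℕ) (L : ℕ), 0 < L ∧ W s v N L v ∧ ∀ T : ℕ, (N T : ℝ) ≤ lam * T) :
    P V C K lam := by
  intro s B hB2 hs0 hs hB
  obtain ⟨k, hk⟩ : ∃ k, k = B.card := ⟨_, rfl⟩
  induction k using Nat.strong_induction_on generalizing B with
  | _ k ih =>
  by_cases hmin : ∀ R ⊆ B, 2 ≤ R.card → R ≠ B →
      ∃ u ∈ R, ∑ y ∈ R, (s u y : ℝ) < K * ((R.card : ℝ) - 1)
  · refine h s B hB2 hs0 hs hB fun v hv => ?_
    refine exists_ball hb (by exact_mod_cast hC) hq hK hβ0 hβ1 hκ (fun u y => ?_) hs0 B hB2 hB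
      hmin hv
    rcases hs u y with h1 | h1
    · left
      exact_mod_cast h1
    · right
      exact_mod_cast h1
  · push Not at hmin
    obtain ⟨R, hRB, hR2, hne, hR⟩ := hmin
    have hlt : R.card < k := by
      rw [hk]
      exact card_lt_card (ssubset_of_subset_of_ne hRB hne)
    exact ih _ hlt R hR2 hR rfl

/-- two large balls meet in opposite directions -/
theorem exists_pair [DecidableEq V] (B : Finset V) (hB : B.Nonempty) (R : V → Finset V)
    (hR : ∀ v ∈ B, R v ⊆ B) (hbig : ∀ v ∈ B, B.card + 2 ≤ 2 * (R v).card) :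
    ∃ v ∈ B, ∃ y ∈ B, v ≠ y ∧ y ∈ R v ∧ v ∈ R y := by
  by_contra hcon
  push Not at hcon
  have h1 : ∑ v ∈ B, ∑ y ∈ B, ((if y ∈ R v then 1 else 0) + (if v ∈ R y then 1 else 0)) ≤
      ∑ v ∈ B, ∑ y ∈ B, (1 + if y = v then 1 else 0) := by
    refine sum_le_sum fun v hv => sum_le_sum fun y hy => ?_
    by_cases h : y = v
    · rw [if_pos h]
      split_ifs <;> omega
    · rw [if_neg h]
      by_cases h2 : y ∈ R v
      · rw [if_pos h2, if_neg (hcon v hv y hy (Ne.symm h) h2)]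
      · rw [if_neg h2]
        split_ifs <;> omega
  have h2 : ∑ v ∈ B, ∑ y ∈ B, ((if y ∈ R v then 1 else 0) + (if v ∈ R y then 1 else 0)) =
      ∑ v ∈ B, 2 * (R v).card := by
    have e1 : ∀ v ∈ B, ∑ y ∈ B, (if y ∈ R v then 1 else 0) = (R v).card := by
      intro v hv
      rw [← sum_filter, sum_const, smul_eq_mul, mul_one]
      congr 1
      ext y
      rw [mem_filter]
      exact ⟨fun h => h.2, fun h => ⟨hR v hv h, h⟩⟩
    simp only [sum_add_distrib]
    rw [sum_comm (f := fun v y => if v ∈ R y then 1 else 0)]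
    rw [sum_congr rfl e1, ← sum_add_distrib]
    exact sum_congr rfl fun v _ => by ring
  have h3 : ∑ v ∈ B, ∑ y ∈ B, (1 + if y = v then 1 else 0) = ∑ v ∈ B, (B.card + 1) := by
    refine sum_congr rfl fun v hv => ?_
    rw [sum_add_distrib, sum_const, smul_eq_mul, mul_one, sum_ite_eq' B v, if_pos hv]
  have h4 : ∑ v ∈ B, (B.card + 1) < ∑ v ∈ B, 2 * (R v).card := by
    refine sum_lt_sum_of_nonempty hB fun v hv => ?_
    have := hbig v hv
    omega
  omega

/-- the two-ball argument -/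
theorem P_base [DecidableEq V] {b q K κ lam : ℝ} {C : ℕ} (hb : 0 < b) (hC : 0 < C)
    (hq : 1 < q) (hK : 0 < K)
    (hκ : (q + q ^ 2 / (b * C * (q - 1))) * Real.log 2 / K + 1 / C + b / 2 ≤ κ)
    (hlam : 2 * κ ≤ lam) : P V C K lam := by
  have e : Real.log (1 / (1 - (1 / 2 : ℝ))) = Real.log 2 := by norm_num
  refine P_of_balls (β := 1 / 2) (κ := κ) hb hC hq hK (by norm_num) (by norm_num)
    (by rw [e]; exact hκ) ?_
  intro s B hB2 hs0 hs hB hball
  choose! R hR using hball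
  have hBne : B.Nonempty := card_pos.mp (by omega)
  obtain ⟨v, hv, y, hy, hvy, h1, h2⟩ := exists_pair B hBne R (fun v hv => (hR v hv).1)
    (fun v hv => by
      have h1 := (hR v hv).2.2.1
      have h2 : (B.card : ℝ) + 1 < 2 * ((R v).card : ℝ) := by linarith
      have h3 : B.card + 1 < 2 * (R v).card := by exact_mod_cast h2
      omega)
  obtain ⟨N1, L1, hW1, hN1⟩ := (hR v hv).2.2.2 y h1
  obtain ⟨N2, L2, hW2, hN2⟩ := (hR y hy).2.2.2 v h2
  refine ⟨v, _, L1 + L2, ?_, hW1.trans hW2, fun T => ?_⟩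
  · by_contra hcon
    exact hvy (hW1.eq_of_zero (by omega))
  · have h3 := hN1 T
    have h4 := hN2 T
    have h5 : (0 : ℝ) ≤ T := Nat.cast_nonneg T
    have h6 := mul_le_mul_of_nonneg_right hlam h5
    push_cast
    linarith

/-- averaging -/
theorem exists_popular [DecidableEq V] (B : Finset V) (hB : B.Nonempty) (R : V → Finset V)
    (hR : ∀ v ∈ B, R v ⊆ B) {r : ℝ} (hbig : ∀ v ∈ B, r < ((R v).card : ℝ) - 1) :
    ∃ w ∈ B, r < ((B.filter fun v => w ∈ R v).card : ℝ) - 1 := by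
  by_contra hcon
  push Not at hcon
  have h1 : ∑ w ∈ B, ((B.filter fun v => w ∈ R v).card : ℝ) = ∑ v ∈ B, ((R v).card : ℝ) := by
    have e1 : ∀ w, ((B.filter fun v => w ∈ R v).card : ℝ) =
        ∑ v ∈ B, if w ∈ R v then (1 : ℝ) else 0 := by
      intro w
      rw [sum_boole]
    have e2 : ∀ v ∈ B, ((R v).card : ℝ) = ∑ w ∈ B, if w ∈ R v then (1 : ℝ) else 0 := by
      intro v hv
      rw [sum_boole]
      congr 2
      ext w
      rw [mem_filter]
      exact ⟨fun h => ⟨hR v hv h, h⟩, fun h => h.2⟩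
    rw [sum_congr rfl fun w _ => e1 w, sum_comm]
    exact sum_congr rfl fun v hv => (e2 v hv).symm
  have h2 : ∑ w ∈ B, ((B.filter fun v => w ∈ R v).card : ℝ) ≤ ∑ w ∈ B, (r + 1) :=
    sum_le_sum fun w hw => by
      have := hcon w hw
      linarith
  have h3 : ∑ w ∈ B, (r + 1) < ∑ v ∈ B, ((R v).card : ℝ) :=
    sum_lt_sum_of_nonempty hB fun v hv => by
      have := hbig v hv
      linarith
  linarith

/-- closing up at `w` -/
theorem close_up {s : V → V → ℕ} {w : V} {D : Finset V} {κ : ℝ} {C : ℕ} (hC : 0 < C)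
    (hs : ∀ u y, s u y = 0 ∨ C ≤ s u y)
    (hD : ∀ x ∈ D, ∃ (N : ℕ → ℕ) (L : ℕ), W s x N L w ∧ ∀ T : ℕ, (N T : ℝ) ≤ κ * T)
    {u : V} {N2 : ℕ → ℕ} {L2 : ℕ} (hW : W s w N2 L2 u) (hx : ∃ x ∈ D, 0 < s u x) :
    ∃ (v : V) (N0 : ℕ → ℕ) (L0 : ℕ), 0 < L0 ∧ W s v N0 L0 v ∧
      ∀ T : ℕ, (N0 T : ℝ) ≤ N2 T + (κ + 1 / C) * T := by
  have hCr : (0 : ℝ) < C := by exact_mod_cast hC
  obtain ⟨x, hxD, hx⟩ := hx
  obtain ⟨Nx, Lx, hWx, hNx⟩ := hD x hxD
  refine ⟨w, _, L2 + 1 + Lx, by omega, (W.step hW hx).trans hWx, fun T => ?_⟩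
  have h1 := hNx T
  have h2 : (((if s u x ≤ T then 1 else 0 : ℕ)) : ℝ) ≤ 1 / C * T := by
    split_ifs with h3
    · have h4 : C ≤ s u x := by
        rcases hs u x with h5 | h5
        · omega
        · exact h5
      have h5 : (C : ℝ) ≤ T := by exact_mod_cast h4.trans h3
      rw [Nat.cast_one, div_mul_eq_mul_div, one_mul, le_div_iff₀ hCr]
      linarith
    · simp only [Nat.cast_zero]
      positivity
  push_cast at h2 ⊢
  linarith

/-- the transfer of walks from the contracted multiplicities -/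
theorem transfer {s s' : V → V → ℕ} {w : V} {D : Finset V} {κ : ℝ} {C : ℕ} (hC : 0 < C)
    (hs : ∀ u y, s u y = 0 ∨ C ≤ s u y)
    (hs' : ∀ u y, 0 < s' u y → (y ≠ w ∧ s' u y = s u y) ∨ (y = w ∧ ∃ x ∈ D, 0 < s u x))
    (hD : ∀ x ∈ D, ∃ (N : ℕ → ℕ) (L : ℕ), W s x N L w ∧ ∀ T : ℕ, (N T : ℝ) ≤ κ * T)
    {a y : V} {N : ℕ → ℕ} {L : ℕ} (h : W s' a N L y) :
    (∃ (v : V) (N0 : ℕ → ℕ) (L0 : ℕ), 0 < L0 ∧ W s v N0 L0 v ∧
        ∀ T : ℕ, (N0 T : ℝ) ≤ N T + (κ + 1 / C) * T) ∨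
      (∃ N1 : ℕ → ℕ, W s a N1 L y ∧ ∀ T, N1 T ≤ N T) ∨
      (∃ (u : V) (N1 : ℕ → ℕ) (L1 : ℕ) (N2 : ℕ → ℕ) (L2 : ℕ), W s a N1 L1 u ∧
        (∃ x ∈ D, 0 < s u x) ∧ W s w N2 L2 y ∧ ∀ T, N1 T + N2 T ≤ N T) := by
  induction h with
  | refl => exact Or.inr (Or.inl ⟨_, W.refl, fun T => le_rfl⟩)
  | @step N L u y _ hpos ih =>
    rcases ih with ⟨v, N0, L0, hL0, hW, hN⟩ | ⟨N1, hW, hN⟩ | ⟨u0, N1, L1, N2, L2, hW1, hx, hW2, hN⟩
    · refine Or.inl ⟨v, N0, L0, hL0, hW, fun T => ?_⟩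
      have h1 := hN T
      have h2 : (0 : ℝ) ≤ (((if s' u y ≤ T then 1 else 0 : ℕ)) : ℝ) := Nat.cast_nonneg _
      push_cast at h2 ⊢
      linarith
    · rcases hs' u y hpos with ⟨hy, he⟩ | ⟨hy, hx⟩
      · refine Or.inr (Or.inl ⟨_, W.step hW (he ▸ hpos), fun T => ?_⟩)
        rw [he]
        exact Nat.add_le_add_right (hN T) _
      · subst hy
        exact Or.inr (Or.inr ⟨u, N1, L, _, 0, hW, hx, W.refl,
          fun T => (hN T).trans (Nat.le_add_right _ _)⟩)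
    · rcases hs' u y hpos with ⟨hy, he⟩ | ⟨hy, hx'⟩
      · refine Or.inr (Or.inr ⟨u0, N1, L1, _, L2 + 1, hW1, hx, W.step hW2 (he ▸ hpos),
          fun T => ?_⟩)
        rw [he, ← add_assoc]
        exact Nat.add_le_add_right (hN T) _
      · obtain ⟨v, N0, L0, hL0, hW, hN0⟩ := close_up hC hs hD hW2 hx'
        refine Or.inl ⟨v, N0, L0, hL0, hW, fun T => ?_⟩
        have h1 := hN0 T
        have h2 : (N2 T : ℝ) ≤ N T := by
          have := hN T
          exact_mod_cast (by omega : N2 T ≤ N T)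
        have h3 : (0 : ℝ) ≤ (((if s' u y ≤ T then 1 else 0 : ℕ)) : ℝ) := Nat.cast_nonneg _
        push_cast at h3 ⊢
        linarith

/-- closed walks transfer -/
theorem transfer_closed {s s' : V → V → ℕ} {w : V} {D : Finset V} {κ : ℝ} {C : ℕ} (hC : 0 < C)
    (hκ0 : 0 ≤ κ)
    (hs : ∀ u y, s u y = 0 ∨ C ≤ s u y)
    (hs' : ∀ u y, 0 < s' u y → (y ≠ w ∧ s' u y = s u y) ∨ (y = w ∧ ∃ x ∈ D, 0 < s u x))
    (hD : ∀ x ∈ D, ∃ (N : ℕ → ℕ) (L : ℕ), W s x N L w ∧ ∀ T : ℕ, (N T : ℝ) ≤ κ * T)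
    {a : V} {N : ℕ → ℕ} {L : ℕ} (hL : 0 < L) (h : W s' a N L a) :
    ∃ (v : V) (N0 : ℕ → ℕ) (L0 : ℕ), 0 < L0 ∧ W s v N0 L0 v ∧
        ∀ T : ℕ, (N0 T : ℝ) ≤ N T + (κ + 1 / C) * T := by
  rcases transfer hC hs hs' hD h with h1 | ⟨N1, hW, hN⟩ | ⟨u, N1, L1, N2, L2, hW1, hx, hW2, hN⟩
  · exact h1
  · refine ⟨a, N1, L, hL, hW, fun T => ?_⟩
    have h2 : (N1 T : ℝ) ≤ N T := by exact_mod_cast hN T
    have h3 : 0 ≤ (κ + 1 / C) * (T : ℝ) := by positivity
    linarith
  · obtain ⟨v, N0, L0, hL0, hW, hN0⟩ := close_up hC hs hD (hW2.trans hW1) hx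
    refine ⟨v, N0, L0, hL0, hW, fun T => ?_⟩
    have h1 := hN0 T
    have h2 : ((N1 T + N2 T : ℕ) : ℝ) ≤ N T := by exact_mod_cast hN T
    push_cast at h1 h2
    linarith

/-- **Contraction.** -/
theorem P_step [DecidableEq V] {b q K β κ lam lam' : ℝ} {C : ℕ} (hb : 0 < b) (hC : 0 < C)
    (hq : 1 < q) (hK : 0 < K) (hβ0 : 0 < β) (hβ1 : β < 1)
    (hκ : (q + q ^ 2 / (b * C * (q - 1))) * Real.log (1 / (1 - β)) / K + 1 / C + b / 2 ≤ κ)
    (hlam0 : 0 ≤ lam') (hlam : lam' + κ + 1 / C ≤ lam)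
    (hP : P V C (K / (1 - β)) lam') : P V C K lam := by
  have hCr : (0 : ℝ) < C := by exact_mod_cast hC
  refine P_of_balls hb hC hq hK hβ0 hβ1 hκ ?_
  intro s B hB2 hs0 hs hB hball
  choose! R hR using hball
  have hBne : B.Nonempty := card_pos.mp (by omega)
  have hBr : (2 : ℝ) ≤ B.card := by exact_mod_cast hB2
  obtain ⟨w, hwB, hw⟩ := exists_popular B hBne R (fun v hv => (hR v hv).1)
    (fun v hv => (hR v hv).2.2.1)
  obtain ⟨D, hD⟩ : ∃ D, D = B.filter fun v => w ∈ R v := ⟨_, rfl⟩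
  rw [← hD] at hw
  have hDB : D ⊆ B := by rw [hD]; exact filter_subset _ _
  have hwD : w ∈ D := by
    rw [hD, mem_filter]
    exact ⟨hwB, (hR w hwB).2.1⟩
  have hDW : ∀ x ∈ D, ∃ (N : ℕ → ℕ) (L : ℕ), W s x N L w ∧ ∀ T : ℕ, (N T : ℝ) ≤ κ * T := by
    intro x hx
    rw [hD, mem_filter] at hx
    exact (hR x hx.1).2.2.2 w hx.2
  have hκ0 : 0 ≤ κ := by
    obtain ⟨N, L, _, hN⟩ := hDW w hwD
    have h1 := hN 1
    have h2 : (0 : ℝ) ≤ N 1 := Nat.cast_nonneg _
    simp only [Nat.cast_one, mul_one] at h1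
    linarith
  by_cases hcase : ∃ x ∈ D, 0 < s w x
  · -- a short closed walk through `w`
    obtain ⟨v, N0, L0, hL0, hW, hN⟩ := close_up hC hs hDW W.refl hcase
    refine ⟨v, N0, L0, hL0, hW, fun T => ?_⟩
    have h1 := hN T
    have h2 : (κ + 1 / C) * (T : ℝ) ≤ lam * T :=
      mul_le_mul_of_nonneg_right (by linarith) (Nat.cast_nonneg T)
    simp only [Nat.cast_zero, zero_add] at h1
    linarith
  · have hw0 : ∀ x ∈ D, s w x = 0 := by
      intro x hx
      by_contra h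
      exact hcase ⟨x, hx, Nat.pos_of_ne_zero h⟩
    have hDcard : 1 ≤ D.card := card_pos.mpr ⟨w, hwD⟩
    have hcard : ((B \ D).card : ℝ) = ((B.card : ℝ) - 1) - ((D.card : ℝ) - 1) := by
      rw [card_sdiff_of_subset hDB, Nat.cast_sub (card_le_card hDB)]
      ring
    -- the contracted multiplicities
    obtain ⟨M, hM⟩ := exists_nat_ge (max (C : ℝ) (K * ((B.card : ℝ) - 1)))
    have hMC : C ≤ M := by exact_mod_cast (le_max_left _ _).trans hM
    have hMK : K * ((B.card : ℝ) - 1) ≤ M := (le_max_right _ _).trans hM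
    obtain ⟨B', hB'⟩ : ∃ B', B' = insert w (B \ D) := ⟨_, rfl⟩
    have hwnot : w ∉ B \ D := fun h => (mem_sdiff.mp h).2 hwD
    have hB'card : B'.card = (B \ D).card + 1 := by rw [hB', card_insert_of_notMem hwnot]
    have hB'B : B' ⊆ B := by
      rw [hB']
      exact insert_subset hwB sdiff_subset
    classical
    obtain ⟨s', hs'⟩ : ∃ s' : V → V → ℕ, s' = fun u y => if u ∈ B' ∧ y ∈ B' then
        (if y = w then (if ∃ x ∈ D, 0 < s u x then M else 0) else s u y) else 0 := ⟨_, rfl⟩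
    have hBDne : 1 ≤ (B \ D).card := by
      by_contra h
      have h1 : B \ D = ∅ := card_eq_zero.mp (by omega)
      have h2 : B ⊆ D := sdiff_eq_empty_iff_subset.mp h1
      have h3 := hB w hwB
      have h4 : ∑ y ∈ B, (s w y : ℝ) = 0 :=
        sum_eq_zero fun y hy => by rw [hw0 y (h2 hy)]; simp
      have h5 : 0 < K * ((B.card : ℝ) - 1) := mul_pos hK (by linarith)
      linarith
    have hcl := hP s' B' (by omega) (by
        intro u
        rw [hs']
        simp only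
        by_cases h1 : u = w
        · subst h1
          simp [hcase]
        · simp [h1, hs0]) (by
        intro u y
        rw [hs']
        simp only
        split_ifs
        · exact Or.inr hMC
        · exact Or.inl rfl
        · exact hs u y
        · exact Or.inl rfl) (by
        intro u hu
        have hlow : K / (1 - β) * ((B'.card : ℝ) - 1) ≤ K * ((B.card : ℝ) - 1) := by
          have h1 : (0 : ℝ) < 1 - β := by linarith
          rw [hB'card, div_mul_eq_mul_div, div_le_iff₀ h1]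
          push_cast
          have h2 : ((B \ D).card : ℝ) ≤ ((B.card : ℝ) - 1) * (1 - β) := by
            rw [hcard]
            linarith
          have h3 := mul_le_mul_of_nonneg_left h2 hK.le
          linarith
        refine hlow.trans ?_
        by_cases hx : ∃ x ∈ D, 0 < s u x
        · have hwB' : w ∈ B' := by rw [hB']; exact mem_insert_self _ _
          have h1 : s' u w = M := by
            rw [hs']
            show (if u ∈ B' ∧ w ∈ B' then (if w = w then (if ∃ x ∈ D, 0 < s u x then M else 0)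
              else s u w) else 0) = M
            rw [if_pos ⟨hu, hwB'⟩, if_pos rfl, if_pos hx]
          calc K * ((B.card : ℝ) - 1) ≤ (s' u w : ℝ) := by rw [h1]; exact hMK
            _ ≤ ∑ y ∈ B', (s' u y : ℝ) :=
                single_le_sum (f := fun y => (s' u y : ℝ)) (fun y _ => Nat.cast_nonneg _) hwB'
        · have hu0 : ∀ x ∈ D, s u x = 0 := by
            intro x hx'
            by_contra h
            exact hx ⟨x, hx', Nat.pos_of_ne_zero h⟩
          have h1 : ∑ y ∈ B, (s u y : ℝ) = ∑ y ∈ B \ D, (s u y : ℝ) := by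
            rw [← sum_sdiff hDB]
            have h2 : ∑ y ∈ D, (s u y : ℝ) = 0 :=
              sum_eq_zero fun y hy => by rw [hu0 y hy]; simp
            rw [h2, add_zero]
          have h2 : ∑ y ∈ B \ D, (s u y : ℝ) ≤ ∑ y ∈ B', (s' u y : ℝ) := by
            have h3 : ∑ y ∈ B \ D, (s u y : ℝ) = ∑ y ∈ B \ D, (s' u y : ℝ) := by
              refine sum_congr rfl fun y hy => ?_
              have hyB' : y ∈ B' := by rw [hB']; exact mem_insert_of_mem hy
              have hyw : y ≠ w := fun h => hwnot (h ▸ hy)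
              rw [hs']
              simp only
              rw [if_pos ⟨hu, hyB'⟩, if_neg hyw]
            rw [h3]
            refine sum_le_sum_of_subset_of_nonneg ?_ fun y _ _ => Nat.cast_nonneg _
            rw [hB']
            exact subset_insert _ _
          have h3 := hB u (hB'B hu)
          linarith)
    obtain ⟨a, N, L, hL, hW, hN⟩ := hcl
    obtain ⟨v, N0, L0, hL0, hW0, hN0⟩ := transfer_closed hC hκ0 hs (s' := s') (w := w) (D := D) (by
      intro u y hpos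
      rw [hs'] at hpos ⊢
      simp only at hpos ⊢
      by_cases h1 : u ∈ B' ∧ y ∈ B'
      · rw [if_pos h1] at hpos ⊢
        by_cases h2 : y = w
        · right
          rw [if_pos h2] at hpos
          by_cases h3 : ∃ x ∈ D, 0 < s u x
          · exact ⟨h2, h3⟩
          · rw [if_neg h3] at hpos
            omega
        · left
          rw [if_neg h2]
          exact ⟨h2, rfl⟩
      · rw [if_neg h1] at hpos
        omega) hDW hL hW
    refine ⟨v, N0, L0, hL0, hW0, fun T => ?_⟩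
    have h1 := hN0 T
    have h2 := hN T
    have h3 : (lam' + κ + 1 / C) * (T : ℝ) ≤ lam * T :=
      mul_le_mul_of_nonneg_right hlam (Nat.cast_nonneg T)
    linarith

end Pool.Agent.H81.RD
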