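import Mathlib

/-!
# A smooth maximum

`F b l = max_π (∑ π_i l_i - b / 2 ∑ π_i ^ 2)`, the maximum over the standard simplex. For counts
`n i` at the thresholds `C q ^ i` (`i ≤ J`) the load at `j` is `(∑_{i ≤ j} n i) / (C q ^ j)`. The
function `pot` is `F` of the loads. Its discrete prices, weighted by the gaps between thresholds,
have a sum which is bounded independently of `J`.
-/

set_option autoImplicit false

namespace Pool.Agent.H81.RD

open Finset

variable {J : ℕ}

/-- the objective function -/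
noncomputable def obj (b : ℝ) (l π : Fin (J + 1) → ℝ) : ℝ :=
  ∑ i, π i * l i - b / 2 * ∑ i, π i ^ 2

theorem exists_maxi (b : ℝ) (l : Fin (J + 1) → ℝ) :
    ∃ π ∈ stdSimplex ℝ (Fin (J + 1)), ∀ σ ∈ stdSimplex ℝ (Fin (J + 1)), obj b l σ ≤ obj b l π := by
  have hne : (stdSimplex ℝ (Fin (J + 1))).Nonempty := ⟨_, single_mem_stdSimplex ℝ 0⟩
  have hc : Continuous (obj b l) := by
    unfold obj
    fun_prop
  obtain ⟨π, hπ, h⟩ := (isCompact_stdSimplex ℝ (Fin (J + 1))).exists_isMaxOn hne hc.continuousOn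
  exact ⟨π, hπ, fun σ hσ => h hσ⟩

/-- the maximizer -/
noncomputable def maxi (b : ℝ) (l : Fin (J + 1) → ℝ) : Fin (J + 1) → ℝ := (exists_maxi b l).choose

theorem maxi_mem (b : ℝ) (l : Fin (J + 1) → ℝ) : maxi b l ∈ stdSimplex ℝ (Fin (J + 1)) :=
  (exists_maxi b l).choose_spec.1

theorem maxi_nonneg (b : ℝ) (l : Fin (J + 1) → ℝ) (i : Fin (J + 1)) : 0 ≤ maxi b l i :=
  (maxi_mem b l).1 i

theorem maxi_sum (b : ℝ) (l : Fin (J + 1) → ℝ) : ∑ i, maxi b l i = 1 := (maxi_mem b l).2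

theorem maxi_max (b : ℝ) (l : Fin (J + 1) → ℝ) {σ : Fin (J + 1) → ℝ}
    (hσ : σ ∈ stdSimplex ℝ (Fin (J + 1))) : obj b l σ ≤ obj b l (maxi b l) :=
  (exists_maxi b l).choose_spec.2 σ hσ

theorem maxi_foc {b : ℝ} (hb : 0 < b) (l : Fin (J + 1) → ℝ) {σ : Fin (J + 1) → ℝ}
    (hσ : σ ∈ stdSimplex ℝ (Fin (J + 1))) :
    ∑ i, (l i - b * maxi b l i) * (σ i - maxi b l i) ≤ 0 := by
  obtain ⟨π, hπdef⟩ : ∃ π, π = maxi b l := ⟨_, rfl⟩
  rw [← hπdef]
  obtain ⟨A, hA⟩ : ∃ A, A = ∑ i, (l i - b * π i) * (σ i - π i) := ⟨_, rfl⟩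
  obtain ⟨Q, hQ⟩ : ∃ Q, Q = b * ∑ i, (σ i - π i) ^ 2 := ⟨_, rfl⟩
  have hQ0 : 0 ≤ Q := by
    rw [hQ]
    exact mul_nonneg hb.le (sum_nonneg fun i _ => sq_nonneg _)
  have key : ∀ t : ℝ, 0 < t → t ≤ 1 → A ≤ t * Q / 2 := by
    intro t ht0 ht1
    have hmem : (fun i => π i + t * (σ i - π i)) ∈ stdSimplex ℝ (Fin (J + 1)) := by
      have h1 := convex_stdSimplex ℝ (Fin (J + 1)) (maxi_mem b l) hσ
        (by linarith : 0 ≤ 1 - t) ht0.le (by ring)
      rw [← hπdef] at h1
      convert h1 using 1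
      ext i
      simp only [Pi.add_apply, Pi.smul_apply, smul_eq_mul]
      ring
    have h1 := maxi_max b l hmem
    rw [← hπdef] at h1
    have h2 : obj b l (fun i => π i + t * (σ i - π i)) =
        obj b l π + t * A - t ^ 2 * Q / 2 := by
      unfold obj
      rw [hA, hQ]
      have e1 : ∑ i, (π i + t * (σ i - π i)) * l i =
          ∑ i, π i * l i + t * ∑ i, (σ i - π i) * l i := by
        rw [mul_sum, ← sum_add_distrib]
        exact sum_congr rfl fun i _ => by ring
      have e2 : ∑ i, (π i + t * (σ i - π i)) ^ 2 =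
          ∑ i, π i ^ 2 + 2 * t * ∑ i, π i * (σ i - π i) + t ^ 2 * ∑ i, (σ i - π i) ^ 2 := by
        rw [mul_sum, mul_sum, ← sum_add_distrib, ← sum_add_distrib]
        exact sum_congr rfl fun i _ => by ring
      have e3 : ∑ i, (l i - b * π i) * (σ i - π i) =
          ∑ i, (σ i - π i) * l i - b * ∑ i, π i * (σ i - π i) := by
        rw [mul_sum, ← sum_sub_distrib]
        exact sum_congr rfl fun i _ => by ring
      rw [e1, e2, e3]
      ring
    rw [h2] at h1
    have h3 : t * A ≤ t * (t * Q / 2) := by nlinarith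
    exact le_of_mul_le_mul_left h3 ht0
  rw [← hA]
  by_contra hcon
  push Not at hcon
  have h1 := key 1 one_pos le_rfl
  have hQpos : 0 < Q := by linarith
  have h2 := key (A / Q) (div_pos hcon hQpos) (by
    rw [div_le_one hQpos]; linarith)
  have h3 : A / Q * Q = A := div_mul_cancel₀ A hQpos.ne'
  rw [h3] at h2
  linarith

/-- the smooth maximum -/
noncomputable def F (b : ℝ) (l : Fin (J + 1) → ℝ) : ℝ := obj b l (maxi b l)

theorem obj_add (b : ℝ) (l d π : Fin (J + 1) → ℝ) :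
    obj b (l + d) π = obj b l π + ∑ i, π i * d i := by
  unfold obj
  simp only [Pi.add_apply, mul_add, sum_add_distrib]
  ring

theorem F_zero {b : ℝ} (hb : 0 < b) : F b (0 : Fin (J + 1) → ℝ) ≤ 0 := by
  unfold F obj
  have h2 : 0 ≤ ∑ i : Fin (J + 1), maxi b (0 : Fin (J + 1) → ℝ) i ^ 2 :=
    sum_nonneg fun i _ => sq_nonneg _
  simp only [Pi.zero_apply, mul_zero, sum_const_zero, zero_sub]
  have : 0 ≤ b / 2 * ∑ i : Fin (J + 1), maxi b (0 : Fin (J + 1) → ℝ) i ^ 2 :=
    mul_nonneg (by linarith) h2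
  linarith

theorem le_F (b : ℝ) (l : Fin (J + 1) → ℝ) (i : Fin (J + 1)) : l i ≤ F b l + b / 2 := by
  have h1 := maxi_max b l (single_mem_stdSimplex ℝ i)
  have h2 : obj b l (Pi.single i 1) = l i - b / 2 := by
    unfold obj
    simp [Pi.single_apply, ite_pow]
  rw [h2] at h1
  unfold F
  linarith

theorem F_mono (b : ℝ) (l d : Fin (J + 1) → ℝ) (hd : ∀ i, 0 ≤ d i) : F b l ≤ F b (l + d) := by
  have h1 := maxi_max b (l + d) (maxi_mem b l)
  rw [obj_add] at h1
  have h2 : 0 ≤ ∑ i, maxi b l i * d i :=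
    sum_nonneg fun i _ => mul_nonneg (maxi_nonneg b l i) (hd i)
  unfold F
  linarith

theorem F_step_max (b : ℝ) (l d : Fin (J + 1) → ℝ) {M : ℝ} (hM : ∀ i, d i ≤ M) :
    F b (l + d) ≤ F b l + M := by
  have h1 := maxi_max b l (maxi_mem b (l + d))
  have h2 := obj_add b l d (maxi b (l + d))
  have h3 : ∑ i, maxi b (l + d) i * d i ≤ M := by
    calc ∑ i, maxi b (l + d) i * d i ≤ ∑ i, maxi b (l + d) i * M :=
          sum_le_sum fun i _ => mul_le_mul_of_nonneg_left (hM i) (maxi_nonneg _ _ i)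
      _ = M := by rw [← sum_mul, maxi_sum, one_mul]
  unfold F
  linarith

theorem F_step {b : ℝ} (hb : 0 < b) (l d : Fin (J + 1) → ℝ) :
    F b (l + d) ≤ F b l + ∑ i, maxi b l i * d i + ∑ i, d i ^ 2 / b := by
  obtain ⟨π, hπ⟩ : ∃ π, π = maxi b l := ⟨_, rfl⟩
  obtain ⟨π', hπ'⟩ : ∃ π', π' = maxi b (l + d) := ⟨_, rfl⟩
  have h1 := maxi_foc hb l (maxi_mem b (l + d))
  have h2 := maxi_foc hb (l + d) (maxi_mem b l)
  rw [← hπ, ← hπ'] at h1 h2
  have h3 : b * ∑ i, (π' i - π i) ^ 2 ≤ ∑ i, d i * (π' i - π i) := by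
    have e : b * ∑ i, (π' i - π i) ^ 2 - ∑ i, d i * (π' i - π i) =
        ∑ i, (l i - b * π i) * (π' i - π i) +
          ∑ i, ((l + d) i - b * π' i) * (π i - π' i) := by
      rw [mul_sum, ← sum_sub_distrib, ← sum_add_distrib]
      refine sum_congr rfl fun i _ => ?_
      rw [Pi.add_apply]
      ring
    linarith
  have h4 : 2 * ∑ i, d i * (π' i - π i) ≤ ∑ i, d i ^ 2 / b + b * ∑ i, (π' i - π i) ^ 2 := by
    rw [mul_sum, mul_sum, ← sum_add_distrib]
    refine sum_le_sum fun i _ => ?_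
    have h5 : 0 ≤ (d i - b * (π' i - π i)) ^ 2 / b := by positivity
    have h6 : (d i - b * (π' i - π i)) ^ 2 / b =
        d i ^ 2 / b - 2 * (d i * (π' i - π i)) + b * (π' i - π i) ^ 2 := by
      field_simp
      ring
    linarith
  have h5 := maxi_max b l (maxi_mem b (l + d))
  have h6 := obj_add b l d (maxi b (l + d))
  have h7 : ∑ i, maxi b (l + d) i * d i = ∑ i, maxi b l i * d i + ∑ i, d i * (π' i - π i) := by
    rw [← hπ, ← hπ', ← sum_add_distrib]
    exact sum_congr rfl fun i _ => by ring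
  unfold F
  linarith

/-! ### Loads -/

/-- the load vector of a single count at threshold `i` -/
noncomputable def dl (C q : ℝ) (i : Fin (J + 1)) : Fin (J + 1) → ℝ :=
  fun j => if i ≤ j then 1 / (C * q ^ (j : ℕ)) else 0

/-- the loads -/
noncomputable def ld (C q : ℝ) (n : Fin (J + 1) → ℕ) : Fin (J + 1) → ℝ :=
  fun j => (∑ i, if i ≤ j then (n i : ℝ) else 0) / (C * q ^ (j : ℕ))

theorem ld_add_single (C q : ℝ) (n : Fin (J + 1) → ℕ) (i : Fin (J + 1)) :
    ld C q (n + Pi.single i 1) = ld C q n + dl C q i := by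
  ext j
  simp only [ld, dl, Pi.add_apply]
  have e : ∑ k, (if k ≤ j then (((n k + (Pi.single i 1 : Fin (J + 1) → ℕ) k : ℕ)) : ℝ) else 0) =
      (∑ k, if k ≤ j then (n k : ℝ) else 0) + if i ≤ j then 1 else 0 := by
    have e1 : ∀ k, (if k ≤ j then (((n k + (Pi.single i 1 : Fin (J + 1) → ℕ) k : ℕ)) : ℝ) else 0) =
        (if k ≤ j then (n k : ℝ) else 0) + if k = i then (if i ≤ j then 1 else 0) else 0 := by
      intro k
      by_cases h : k = i
      · subst h
        by_cases h2 : k ≤ j <;> simp [h2]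
      · simp [h]
    rw [sum_congr rfl fun k _ => e1 k, sum_add_distrib]
    simp
  rw [e, add_div]
  congr 1
  split_ifs <;> simp

/-- the potential -/
noncomputable def pot (b C q : ℝ) (n : Fin (J + 1) → ℕ) : ℝ := F b (ld C q n)

theorem dl_nonneg {C q : ℝ} (hC : 0 < C) (hq : 1 < q) (i j : Fin (J + 1)) : 0 ≤ dl C q i j := by
  unfold dl
  split_ifs
  · positivity
  · exact le_rfl

theorem dl_le {C q : ℝ} (hC : 0 < C) (hq : 1 < q) (i j : Fin (J + 1)) : dl C q i j ≤ 1 / C := by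
  unfold dl
  split_ifs
  · have h1 : 1 ≤ q ^ (j : ℕ) := one_le_pow₀ hq.le
    exact one_div_le_one_div_of_le hC (by nlinarith)
  · positivity

theorem pot_zero {b : ℝ} (hb : 0 < b) (C q : ℝ) : pot b C q (0 : Fin (J + 1) → ℕ) ≤ 0 := by
  have e : ld C q (0 : Fin (J + 1) → ℕ) = 0 := by
    ext j
    simp [ld]
  unfold pot
  rw [e]
  exact F_zero hb

theorem ld_le_pot (b C q : ℝ) (n : Fin (J + 1) → ℕ) (i : Fin (J + 1)) :
    ld C q n i ≤ pot b C q n + b / 2 := le_F b _ i

theorem pot_mono (b : ℝ) {C q : ℝ} (hC : 0 < C) (hq : 1 < q) (n : Fin (J + 1) → ℕ)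
    (i : Fin (J + 1)) : pot b C q n ≤ pot b C q (n + Pi.single i 1) := by
  unfold pot
  rw [ld_add_single]
  exact F_mono b _ _ (dl_nonneg hC hq i)

theorem pot_step_max (b : ℝ) {C q : ℝ} (hC : 0 < C) (hq : 1 < q) (n : Fin (J + 1) → ℕ)
    (i : Fin (J + 1)) : pot b C q (n + Pi.single i 1) ≤ pot b C q n + 1 / C := by
  unfold pot
  rw [ld_add_single]
  exact F_step_max b _ _ (dl_le hC hq i)

/-- the gaps between the thresholds -/
noncomputable def gap (C q : ℝ) (i : ℕ) : ℝ := if i = 0 then C * q else C * q ^ i * (q - 1)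

theorem gap_nonneg {C q : ℝ} (hC : 0 < C) (hq : 1 < q) (i : ℕ) : 0 ≤ gap C q i := by
  unfold gap
  split_ifs
  · positivity
  · have : 0 < q - 1 := by linarith
    positivity

theorem gap_sum (C q : ℝ) (k : ℕ) : ∑ i ∈ range (k + 1), gap C q i = C * q ^ (k + 1) := by
  induction k with
  | zero => simp [gap]
  | succ k ih =>
    rw [sum_range_succ, ih]
    simp only [gap, Nat.succ_ne_zero, if_false]
    ring

theorem gap_sum_fin (C q : ℝ) (j : Fin (J + 1)) :
    (∑ i : Fin (J + 1), if i ≤ j then gap C q i else 0) = C * q ^ ((j : ℕ) + 1) := by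
  rw [← gap_sum, ← sum_filter]
  refine sum_bij' (fun (i : Fin (J + 1)) _ => (i : ℕ))
    (fun (i : ℕ) hi => (⟨i, by
      have h1 := mem_range.mp hi
      have h2 := j.isLt
      omega⟩ : Fin (J + 1))) ?_ ?_ ?_ ?_ ?_
  · intro i hi
    rw [mem_filter] at hi
    rw [mem_range]
    have : (i : ℕ) ≤ j := hi.2
    omega
  · intro i hi
    rw [mem_filter]
    refine ⟨mem_univ _, ?_⟩
    have := mem_range.mp hi
    exact Fin.le_def.mpr (by simp only; omega)
  · intro i _
    rfl
  · intro i _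
    rfl
  · intro i _
    rfl

theorem gap_cover {C q : ℝ} (hC : 0 < C) (hq : 1 < q) (J : ℕ) : ∀ x : ℝ, (x = 0 ∨ C ≤ x) →
    x < C * q ^ (J + 1) →
    x ≤ ∑ i : Fin (J + 1), if C * q ^ (i : ℕ) ≤ x then gap C q i else 0 := by
  induction J with
  | zero =>
    intro x hx hlt
    rcases hx with rfl | hx
    · exact sum_nonneg fun i _ => by
        split_ifs
        · exact gap_nonneg hC hq _
        · exact le_rfl
    · rw [Fin.sum_univ_one]
      simp only [Fin.val_zero, pow_zero, mul_one]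
      rw [if_pos hx]
      simp only [gap, if_true]
      simpa using hlt.le
  | succ J ih =>
    intro x hx hlt
    by_cases h : C * q ^ (J + 1) ≤ x
    · have h1 : ∀ i : Fin (J + 1 + 1), C * q ^ (i : ℕ) ≤ x := by
        intro i
        refine le_trans ?_ h
        exact mul_le_mul_of_nonneg_left (pow_le_pow_right₀ hq.le (by have := i.isLt; omega)) hC.le
      have h2 : ∑ i : Fin (J + 1 + 1), (if C * q ^ (i : ℕ) ≤ x then gap C q i else 0) =
          C * q ^ (J + 1 + 1) := by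
        rw [← gap_sum, ← Fin.sum_univ_eq_sum_range (fun i => gap C q i) (J + 1 + 1)]
        exact sum_congr rfl fun i _ => if_pos (h1 i)
      rw [h2]
      exact hlt.le
    · rw [Fin.sum_univ_castSucc]
      simp only [Fin.val_castSucc, Fin.val_last]
      rw [if_neg h, add_zero]
      exact ih x hx (not_le.mp h)

theorem geom_le {q : ℝ} (hq : 1 < q) (n : ℕ) : ∑ i ∈ range n, 1 / q ^ i ≤ q / (q - 1) := by
  have h0 : 0 < q - 1 := by linarith
  have h : ∑ i ∈ range n, 1 / q ^ i = q / (q - 1) * (1 - 1 / q ^ n) := by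
    induction n with
    | zero => simp
    | succ n ih =>
      rw [sum_range_succ, ih, pow_succ]
      have : q ^ n ≠ 0 := by positivity
      field_simp
      ring
  rw [h]
  have h1 : 0 ≤ 1 / q ^ n := by positivity
  have h2 : 0 ≤ q / (q - 1) := by positivity
  nlinarith

theorem pot_price_sum {b C q : ℝ} (hb : 0 < b) (hC : 0 < C) (hq : 1 < q) (n : Fin (J + 1) → ℕ) :
    ∑ i : Fin (J + 1), gap C q i * (pot b C q (n + Pi.single i 1) - pot b C q n) ≤
      q + q ^ 2 / (b * C * (q - 1)) := by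
  have hq0 : 0 < q - 1 := by linarith
  obtain ⟨π, hπ⟩ : ∃ π, π = maxi b (ld C q n) := ⟨_, rfl⟩
  have h1 : ∀ i : Fin (J + 1), gap C q i * (pot b C q (n + Pi.single i 1) - pot b C q n) ≤
      ∑ j : Fin (J + 1), (if i ≤ j then gap C q i else 0) *
        (π j / (C * q ^ (j : ℕ)) + (1 / (C * q ^ (j : ℕ))) ^ 2 / b) := by
    intro i
    have h2 : pot b C q (n + Pi.single i 1) - pot b C q n ≤
        ∑ j : Fin (J + 1), (if i ≤ j then 1 else 0) *
          (π j / (C * q ^ (j : ℕ)) + (1 / (C * q ^ (j : ℕ))) ^ 2 / b) := by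
      unfold pot
      rw [ld_add_single]
      have h3 := F_step hb (ld C q n) (dl C q i)
      rw [← hπ] at h3
      have h4 : ∑ j, π j * dl C q i j + ∑ j, dl C q i j ^ 2 / b =
          ∑ j : Fin (J + 1), (if i ≤ j then 1 else 0) *
            (π j / (C * q ^ (j : ℕ)) + (1 / (C * q ^ (j : ℕ))) ^ 2 / b) := by
        rw [← sum_add_distrib]
        refine sum_congr rfl fun j _ => ?_
        unfold dl
        split_ifs
        · ring
        · simp
      linarith
    calc gap C q i * (pot b C q (n + Pi.single i 1) - pot b C q n)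
        ≤ gap C q i * ∑ j : Fin (J + 1), (if i ≤ j then 1 else 0) *
          (π j / (C * q ^ (j : ℕ)) + (1 / (C * q ^ (j : ℕ))) ^ 2 / b) :=
          mul_le_mul_of_nonneg_left h2 (gap_nonneg hC hq i)
      _ = _ := by
          rw [mul_sum]
          refine sum_congr rfl fun j _ => ?_
          split_ifs <;> ring
  calc ∑ i : Fin (J + 1), gap C q i * (pot b C q (n + Pi.single i 1) - pot b C q n)
      ≤ ∑ i : Fin (J + 1), ∑ j : Fin (J + 1), (if i ≤ j then gap C q i else 0) *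
        (π j / (C * q ^ (j : ℕ)) + (1 / (C * q ^ (j : ℕ))) ^ 2 / b) :=
        sum_le_sum fun i _ => h1 i
    _ = ∑ j : Fin (J + 1), (q * π j + q / (b * C) * (1 / q ^ (j : ℕ))) := by
        rw [sum_comm]
        refine sum_congr rfl fun j _ => ?_
        rw [← sum_mul, gap_sum_fin]
        have : q ^ (j : ℕ) ≠ 0 := by positivity
        field_simp
        ring
    _ = q + q / (b * C) * ∑ j ∈ range (J + 1), 1 / q ^ j := by
        rw [sum_add_distrib, ← mul_sum, ← mul_sum, hπ, maxi_sum, mul_one,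
          Fin.sum_univ_eq_sum_range (fun j => 1 / q ^ j) (J + 1)]
    _ ≤ q + q / (b * C) * (q / (q - 1)) := by
        have h5 := geom_le hq (J + 1)
        have h6 : 0 ≤ q / (b * C) := by positivity
        have := mul_le_mul_of_nonneg_left h5 h6
        linarith
    _ = q + q ^ 2 / (b * C * (q - 1)) := by
        field_simp

end Pool.Agent.H81.RD
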